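import Mathlib
import Pool.Agent.Lib.MP_f6c7cf_nt.Modular

/-!
No covering-congruence obstruction from primes whose orders of 2 share their 2-adic valuation.
-/

set_option autoImplicit false

namespace Pool.Agent.Lib.MP_f6c7cf_nt.Old.SameValuation

open Pool.Agent.Lib.MP_f6c7cf_nt

lemma coprime_of {Q : Finset ℕ} (hQ : ∀ q ∈ Q, q.Prime) {n x y z w : ℕ} (hn : n % 2 = 1)
    (e : n = x ^ 2 + y ^ 2 + z ^ 2 + 4 * w ^ 2) (o : (2 ^ x + 2 ^ y + 2 ^ z + 1) % 2 = 1)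
    (h : ∀ q ∈ Q, ¬ q ∣ 2 ^ x + 2 ^ y + 2 ^ z + 1) :
    Nat.Coprime (2 ^ x + 2 ^ y + 2 ^ z + 1) (6 * ∏ q ∈ Q, q) := by
  refine Nat.Coprime.mul_right ?_ (Nat.Coprime.prod_right fun q hq => ?_)
  · refine Nat.Coprime.mul_right (m := 2) (n := 3) ?_ ?_
    · exact Nat.coprime_two_right.mpr (Nat.odd_iff.mpr o)
    · exact ((Nat.Prime.coprime_iff_not_dvd Nat.prime_three).mpr (not_three_dvd hn e)).symm
  · exact ((Nat.Prime.coprime_iff_not_dvd (hQ q hq)).mpr (h q hq)).symm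

lemma order_split {q v : ℕ} (hq : q.Prime) (h2 : q ≠ 2)
    (hv : padicValNat 2 (orderOf (2 : ZMod q)) = v) :
    ∃ o, o % 2 = 1 ∧ orderOf (2 : ZMod q) = 2 ^ v * o := by
  have := Fact.mk hq
  have h0 : orderOf (2 : ZMod q) ≠ 0 := by
    have h1 := ZMod.pow_card_sub_one_eq_one (two_ne_zero' hq h2)
    have h3 := hq.two_le
    exact (orderOf_pos_iff.mpr (isOfFinOrder_iff_pow_eq_one.mpr ⟨q - 1, by omega, h1⟩)).ne'
  obtain ⟨k, o, ho, e⟩ := Nat.exists_eq_two_pow_mul_odd h0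
  refine ⟨o, Nat.odd_iff.mp ho, ?_⟩
  have h4 : o ≠ 0 := by rintro rfl; simp at ho
  rw [e, padicValNat.mul (by positivity) h4, padicValNat.prime_pow,
    padicValNat.eq_zero_of_not_dvd (by rw [Nat.odd_iff] at ho; omega), add_zero] at hv
  rw [e, hv]

theorem result (v : ℕ) (Q : Finset ℕ)
    (hQ : ∀ q ∈ Q, q.Prime ∧ q ≠ 2 ∧ padicValNat 2 (orderOf (2 : ZMod q)) = v) :
    ∃ N : ℕ, ∀ n : ℕ, N ≤ n → Odd n →
      ∃ x y z w : ℕ, n = x ^ 2 + y ^ 2 + z ^ 2 + 4 * w ^ 2 ∧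
        Nat.Coprime (2 ^ x + 2 ^ y + 2 ^ z + 1) (6 * ∏ q ∈ Q, q) := by
  have h1 : ∀ q ∈ Q, ∃ o, o % 2 = 1 ∧ orderOf (2 : ZMod q) = 2 ^ v * o :=
    fun q hq => order_split (hQ q hq).1 (hQ q hq).2.1 (hQ q hq).2.2
  choose! o ho1 ho2 using h1
  have hm : (∏ q ∈ Q, o q) % 2 = 1 :=
    Nat.odd_iff.mp (Finset.prod_induction o Odd (fun a b ha hb => ha.mul hb) odd_one
      (fun q hq => Nat.odd_iff.mpr (ho1 q hq)))
  have hd : ∀ q ∈ Q, ∃ j, j % 2 = 1 ∧ ∏ q ∈ Q, o q = j * o q := by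
    intro q hq
    obtain ⟨j, hj⟩ := Finset.dvd_prod_of_mem o hq
    refine ⟨j, ?_, by rw [hj, mul_comm]⟩
    rw [hj] at hm
    exact Nat.odd_iff.mp (Nat.Odd.of_mul_right (Nat.odd_iff.mpr hm))
  rcases v with _ | v
  · obtain ⟨N, hN⟩ := avoid_minus _ hm
    refine ⟨N, fun n hn hodd => ?_⟩
    obtain ⟨x, y, z, w, e, p, h⟩ := hN n hn (Nat.odd_iff.mp hodd)
    refine ⟨x, y, z, w, e, coprime_of (fun q hq => (hQ q hq).1) (Nat.odd_iff.mp hodd) e p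
      fun q hq => h q (hQ q hq).1 (hQ q hq).2.1 ?_⟩
    obtain ⟨j, -, hj⟩ := hd q hq
    have := ho2 q hq
    rw [pow_zero, one_mul] at this
    rw [hj, mul_comm, pow_mul, ← this, pow_orderOf_eq_one, one_pow]
  · obtain ⟨N, hN⟩ := avoid_plus (2 ^ v * ∏ q ∈ Q, o q) (Nat.mul_pos (by positivity) (by omega))
    refine ⟨N, fun n hn hodd => ?_⟩
    obtain ⟨x, y, z, w, e, p, h⟩ := hN n hn (Nat.odd_iff.mp hodd)
    refine ⟨x, y, z, w, e, coprime_of (fun q hq => (hQ q hq).1) (Nat.odd_iff.mp hodd) e p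
      fun q hq => h q (hQ q hq).1 (hQ q hq).2.1 ?_⟩
    obtain ⟨j, hj1, hj⟩ := hd q hq
    have := Fact.mk (hQ q hq).1
    have h3 : (2 : ZMod q) ^ (2 ^ v * o q) = -1 := by
      have a : ((2 : ZMod q) ^ (2 ^ v * o q)) ^ 2 = 1 := by
        rw [← pow_mul, show 2 ^ v * o q * 2 = 2 ^ (v + 1) * o q by ring, ← ho2 q hq,
          pow_orderOf_eq_one]
      rcases sq_eq_one_iff.mp a with b | b
      · exfalso
        have c := orderOf_dvd_of_pow_eq_one b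
        rw [ho2 q hq] at c
        have p0 : 0 < 2 ^ v * o q := Nat.mul_pos (by positivity) (by have := ho1 q hq; omega)
        have := Nat.le_of_dvd p0 c
        rw [pow_succ] at this
        nlinarith
      · exact b
    rw [hj, show 2 ^ v * (j * o q) = j * (2 ^ v * o q) by ring]
    exact pow_odd_mul h3 hj1

end Pool.Agent.Lib.MP_f6c7cf_nt.Old.SameValuation
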